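import Pool.Agent.W44.ExpTwo

/-!
All nontrivial integer linear relations between consecutive digits: also those which are multiples
of the relation `b a_k - a_{k+1}`.
-/

set_option autoImplicit false

namespace Pool.Agent.W44

open Finset Filter Topology Polynomial
open Pool.Agent.H393R2.DC (digit)

/-- the shift on sequences -/
def shift : Module.End ℤ (ℕ → ℤ) where
  toFun a := fun k => a (k + 1)
  map_add' _ _ := rfl
  map_smul' _ _ := rfl

lemma shift_apply (a : ℕ → ℤ) (k : ℕ) : shift a k = a (k + 1) := rfl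

lemma shift_pow_apply (j : ℕ) (a : ℕ → ℤ) (k : ℕ) : (shift ^ j) a k = a (k + j) := by
  induction j generalizing a with
  | zero => simp
  | succ j ih =>
    rw [pow_succ, Module.End.mul_apply, ih, shift_apply]
    congr 1

/-- value of the relation with coefficient polynomial `Q` at the sequence `a` -/
noncomputable def rel (Q : ℤ[X]) (a : ℕ → ℤ) : ℕ → ℤ := aeval shift Q a

lemma rel_apply (Q : ℤ[X]) (a : ℕ → ℤ) (m : ℕ) (hm : Q.natDegree ≤ m) (k : ℕ) :
    rel Q a k = ∑ j ∈ range (m + 1), Q.coeff j * a (k + j) := by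
  unfold rel
  rw [aeval_eq_sum_range' (Nat.lt_succ_of_le hm), LinearMap.sum_apply, Finset.sum_apply]
  apply Finset.sum_congr rfl
  intro j _
  rw [LinearMap.smul_apply, Pi.smul_apply, shift_pow_apply, smul_eq_mul]

lemma rel_mul (P Q : ℤ[X]) (a : ℕ → ℤ) : rel (P * Q) a = rel P (rel Q a) := by
  unfold rel
  rw [map_mul, Module.End.mul_apply]

lemma rel_X_sub (b : ℤ) (a : ℕ → ℤ) (k : ℕ) : rel (X - C b) a k = a (k + 1) - b * a k := by
  unfold rel
  rw [map_sub, aeval_X, aeval_C, LinearMap.sub_apply, Pi.sub_apply, shift_apply]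
  rfl

lemma rel_C_mul (c : ℤ) (Q : ℤ[X]) (a : ℕ → ℤ) (k : ℕ) : rel (C c * Q) a k = c * rel Q a k := by
  unfold rel
  rw [map_mul, Module.End.mul_apply, aeval_C]
  rfl

/-- dividing a relation by `b a_k - a_{k+1}` -/
lemma div_step (b : ℕ) (hb : 2 ≤ b) (w : ℕ → ℤ) (W : ℤ) (hw : ∀ k, |w k| ≤ W) (e : ℤ) :
    ∃ J : ℕ, ∀ N : ℕ,
      ((Icc 1 N).filter (fun k : ℕ => ((b : ℤ) - 1) * w k ≠ -e)).card ≤
        J * ((Icc 1 N).filter (fun k : ℕ => w (k + 1) - b * w k ≠ e)).card + J := by
  have hb2 : (2 : ℤ) ≤ b := by exact_mod_cast hb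
  set y : ℕ → ℤ := fun k => ((b : ℤ) - 1) * w k + e with hy
  have hW : 0 ≤ W := (abs_nonneg _).trans (hw 0)
  set Y : ℤ := ((b : ℤ) - 1) * W + |e| with hY
  have hYb : ∀ k, |y k| ≤ Y := by
    intro k
    simp only [hy, hY]
    refine (abs_add_le _ _).trans ?_
    rw [abs_mul, abs_of_nonneg (by linarith : (0 : ℤ) ≤ (b : ℤ) - 1)]
    have := mul_le_mul_of_nonneg_left (hw k) (by linarith : (0 : ℤ) ≤ (b : ℤ) - 1)
    linarith
  obtain ⟨J, hJ⟩ : ∃ J : ℕ, Y < 2 ^ J := by
    refine ⟨Y.toNat, ?_⟩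
    have h1 : Y.toNat < 2 ^ Y.toNat := Nat.lt_two_pow_self
    have h2 : Y ≤ (Y.toNat : ℤ) := Int.self_le_toNat Y
    have h3 : ((Y.toNat : ℕ) : ℤ) < ((2 ^ Y.toNat : ℕ) : ℤ) := by exact_mod_cast h1
    push_cast at h3
    linarith
  -- a failure occurs soon
  have hfail : ∀ k, y k ≠ 0 → ∃ f, k ≤ f ∧ f < k + J ∧ w (f + 1) - b * w f ≠ e := by
    intro k hk
    by_contra hcon
    push Not at hcon
    have hstep : ∀ i, i ≤ J → y (k + i) = (b : ℤ) ^ i * y k := by
      intro i
      induction i with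
      | zero => intro _; simp
      | succ i ih =>
        intro hi
        have h1 := ih (by omega)
        have h2 := hcon (k + i) (by omega) (by omega)
        have h3 : w (k + i + 1) = b * w (k + i) + e := by linarith
        have h4 : y (k + (i + 1)) = b * y (k + i) := by
          simp only [hy]
          rw [show k + (i + 1) = k + i + 1 by ring, h3]
          ring
        rw [h4, h1, pow_succ]
        ring
    have h5 := hstep J le_rfl
    have h6 : (1 : ℤ) ≤ |y k| := Int.one_le_abs hk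
    have h7 : (2 : ℤ) ^ J ≤ |y (k + J)| := by
      rw [h5, abs_mul, abs_of_nonneg (by positivity : (0 : ℤ) ≤ (b : ℤ) ^ J)]
      calc (2 : ℤ) ^ J = 2 ^ J * 1 := (mul_one _).symm
        _ ≤ (b : ℤ) ^ J * |y k| := mul_le_mul (pow_le_pow_left₀ (by norm_num) hb2 _) h6
            (by norm_num) (by positivity)
    have h8 := hYb (k + J)
    linarith
  refine ⟨J, fun N => ?_⟩
  set A := (Icc 1 N).filter (fun k : ℕ => ((b : ℤ) - 1) * w k ≠ -e) with hA
  set B := (Icc 1 N).filter (fun k : ℕ => w (k + 1) - b * w k ≠ e) with hB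
  have hsub : A ⊆ (B.biUnion (fun f => Ioc (f - J) f)) ∪ Ioc (N - J) N := by
    intro k hk
    rw [hA, Finset.mem_filter, Finset.mem_Icc] at hk
    have hyk : y k ≠ 0 := by
      intro h
      apply hk.2
      simp only [hy] at h
      linarith
    obtain ⟨f, hf1, hf2, hf3⟩ := hfail k hyk
    rw [Finset.mem_union, Finset.mem_biUnion]
    by_cases hfN : f ≤ N
    · left
      refine ⟨f, ?_, ?_⟩
      · rw [hB, Finset.mem_filter, Finset.mem_Icc]
        exact ⟨⟨by omega, hfN⟩, hf3⟩
      · rw [Finset.mem_Ioc]; omega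
    · right
      rw [Finset.mem_Ioc]; omega
  refine (Finset.card_le_card hsub).trans ((Finset.card_union_le _ _).trans ?_)
  apply Nat.add_le_add
  · refine Finset.card_biUnion_le.trans ?_
    refine (Finset.sum_le_card_nsmul _ _ J ?_).trans ?_
    · intro f _
      rw [Nat.card_Ioc]; omega
    · rw [smul_eq_mul, mul_comm]
  · rw [Nat.card_Ioc]; omega

/-- from `n(N) ≤ J m(N) + J` -/
lemma absorbJ (J : ℕ) (c : ℝ) (hc : 0 < c) : ∃ c' : ℝ, 0 < c' ∧ ∃ N1 : ℕ, ∀ N : ℕ, N1 ≤ N →
    ∀ m : ℝ, 0 ≤ m → c * (Real.log N) ^ 2 / (Real.log (Real.log N)) ^ 3 ≤ J * m + J →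
    c' * (Real.log N) ^ 2 / (Real.log (Real.log N)) ^ 3 ≤ m := by
  obtain ⟨c', hc', N1, hN1⟩ := absorb2 (c / (J + 1)) (by positivity)
  refine ⟨c', hc', N1, fun N hN m hm h => hN1 N hN m ?_⟩
  have e1 : c / (J + 1) * (Real.log N) ^ 2 / (Real.log (Real.log N)) ^ 3 =
      (c * (Real.log N) ^ 2 / (Real.log (Real.log N)) ^ 3) / (J + 1) := by
    ring
  rw [e1, div_le_iff₀ (by positivity)]
  have hJ : (0 : ℝ) ≤ J := Nat.cast_nonneg _
  nlinarith

/-- bounded digits -/
lemma digit_bound (b : ℕ) (hb : 2 ≤ b) (x : ℝ) (k : ℕ) : |digit b x k| ≤ b := by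
  have hb0 : (0 : ℤ) < b := by exact_mod_cast (by omega : 0 < b)
  have h1 : 0 ≤ digit b x k := Int.emod_nonneg _ hb0.ne'
  have h2 : digit b x k < b := Int.emod_lt_of_pos _ hb0
  rw [abs_of_nonneg h1]
  exact h2.le

/-- every nontrivial relation between the digits of an independent tuple, polynomial form -/
theorem tuple_all {n : ℕ} (α : Fin n → ℝ) (halg : ∀ i, IsAlgebraic ℚ (α i))
    (hind : ∀ z : Fin n → ℤ, z ≠ 0 → Irrational (∑ i, (z i : ℝ) * α i))
    (b : ℕ) (hb : 2 ≤ b) : ∀ (m : ℕ) (Q : Fin n → ℤ[X]), (∃ i, Q i ≠ 0) →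
    (∀ i, (Q i).natDegree ≤ m) → ∀ e : ℤ,
    ∃ c : ℝ, 0 < c ∧ ∃ N0 : ℕ, ∀ N : ℕ, N0 ≤ N →
      c * (Real.log N) ^ 2 / (Real.log (Real.log N)) ^ 3 ≤
        (((Icc 1 N).filter (fun k : ℕ =>
          ∑ i, rel (Q i) (digit b (α i)) k ≠ e)).card : ℝ) := by
  intro m
  induction m with
  | zero =>
    intro Q hQ hdeg e
    have hev : (fun i => ∑ j ∈ range (0 + 1), (Q i).coeff j * (b : ℤ) ^ j) ≠ 0 := by
      obtain ⟨i, hi⟩ := hQ
      intro h
      apply hi
      have h1 := congrFun h i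
      simp only [Finset.sum_range_one, pow_zero, mul_one, Pi.zero_apply, zero_add] at h1
      rw [Polynomial.eq_C_of_natDegree_le_zero (hdeg i), h1, C_0]
    obtain ⟨c, hc, N0, h⟩ := tuple_relations α halg b hb 0 (fun i j => (Q i).coeff j) e
      (hind _ hev)
    refine ⟨c, hc, N0, fun N hN => (h N hN).trans (le_of_eq ?_)⟩
    congr 2
    apply Finset.filter_congr
    intro k _
    have : ∀ i, rel (Q i) (digit b (α i)) k =
        ∑ j ∈ range (0 + 1), (Q i).coeff j * digit b (α i) (k + j) :=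
      fun i => rel_apply _ _ _ (hdeg i) k
    simp only [this]
  | succ m ih =>
    intro Q hQ hdeg e
    by_cases hz : ∃ i, (Q i).eval (b : ℤ) ≠ 0
    · have hev : (fun i => ∑ j ∈ range (m + 1 + 1), (Q i).coeff j * (b : ℤ) ^ j) ≠ 0 := by
        obtain ⟨i, hi⟩ := hz
        intro h
        apply hi
        have h1 := congrFun h i
        rw [eval_eq_sum_range' (Nat.lt_succ_of_le (hdeg i))]
        exact h1
      obtain ⟨c, hc, N0, h⟩ := tuple_relations α halg b hb (m + 1) (fun i j => (Q i).coeff j) e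
        (hind _ hev)
      refine ⟨c, hc, N0, fun N hN => (h N hN).trans (le_of_eq ?_)⟩
      congr 2
      apply Finset.filter_congr
      intro k _
      have : ∀ i, rel (Q i) (digit b (α i)) k =
          ∑ j ∈ range (m + 1 + 1), (Q i).coeff j * digit b (α i) (k + j) :=
        fun i => rel_apply _ _ _ (hdeg i) k
      simp only [this]
    · push Not at hz
      have hdiv : ∀ i, ∃ P : ℤ[X], Q i = (X - C (b : ℤ)) * P :=
        fun i => dvd_iff_isRoot.2 (hz i)
      choose P hP using hdiv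
      have hPdeg : ∀ i, (P i).natDegree ≤ m := by
        intro i
        by_cases h0 : P i = 0
        · rw [h0, natDegree_zero]; omega
        · have h1 := hdeg i
          rw [hP i, natDegree_mul (X_sub_C_ne_zero _) h0, natDegree_X_sub_C] at h1
          omega
      have hP0 : ∃ i, P i ≠ 0 := by
        obtain ⟨i, hi⟩ := hQ
        refine ⟨i, fun h => hi ?_⟩
        rw [hP i, h, mul_zero]
      have hb1 : ((b : ℤ) - 1) ≠ 0 := by
        have : (2 : ℤ) ≤ b := by exact_mod_cast hb
        omega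
      obtain ⟨c, hc, N0, h⟩ := ih (fun i => C ((b : ℤ) - 1) * P i) (by
        obtain ⟨i, hi⟩ := hP0
        exact ⟨i, mul_ne_zero (C_ne_zero.2 hb1) hi⟩) (by
        intro i
        exact (natDegree_C_mul_le _ _).trans (hPdeg i)) (-e)
      set w : ℕ → ℤ := fun k => ∑ i, rel (P i) (digit b (α i)) k with hw
      have hbound : ∃ W : ℤ, ∀ k, |w k| ≤ W := by
        refine ⟨∑ i, ∑ j ∈ range (m + 1), |(P i).coeff j| * b, fun k => ?_⟩
        refine (Finset.abs_sum_le_sum_abs _ _).trans ?_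
        apply Finset.sum_le_sum
        intro i _
        rw [rel_apply _ _ _ (hPdeg i)]
        refine (Finset.abs_sum_le_sum_abs _ _).trans ?_
        apply Finset.sum_le_sum
        intro j _
        rw [abs_mul]
        exact mul_le_mul_of_nonneg_left (digit_bound b hb _ _) (abs_nonneg _)
      obtain ⟨W, hW⟩ := hbound
      obtain ⟨J, hJ⟩ := div_step b hb w W hW e
      obtain ⟨c', hc', N1, hN1⟩ := absorbJ J c hc
      refine ⟨c', hc', max N0 N1, fun N hN => ?_⟩
      refine hN1 N (le_trans (le_max_right _ _) hN) _ (Nat.cast_nonneg _)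
        ((h N (le_trans (le_max_left _ _) hN)).trans ?_)
      have h1 := hJ N
      have e1 : (Icc 1 N).filter (fun k : ℕ =>
          ∑ i, rel (C ((b : ℤ) - 1) * P i) (digit b (α i)) k ≠ -e) =
          (Icc 1 N).filter (fun k : ℕ => ((b : ℤ) - 1) * w k ≠ -e) := by
        apply Finset.filter_congr
        intro k _
        have : ∑ i, rel (C ((b : ℤ) - 1) * P i) (digit b (α i)) k = ((b : ℤ) - 1) * w k := by
          rw [hw, Finset.mul_sum]
          apply Finset.sum_congr rfl
          intro i _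
          rw [rel_C_mul]
        rw [this]
      have e2 : (Icc 1 N).filter (fun k : ℕ => ∑ i, rel (Q i) (digit b (α i)) k ≠ e) =
          (Icc 1 N).filter (fun k : ℕ => w (k + 1) - b * w k ≠ e) := by
        apply Finset.filter_congr
        intro k _
        have : ∑ i, rel (Q i) (digit b (α i)) k = w (k + 1) - b * w k := by
          rw [hw]
          simp only
          rw [Finset.mul_sum, ← Finset.sum_sub_distrib]
          apply Finset.sum_congr rfl
          intro i _
          rw [hP i, rel_mul, rel_X_sub]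
        rw [this]
      rw [e1, e2]
      exact_mod_cast h1

/-- every nontrivial relation between the digits of an independent tuple -/
theorem tuple_nontrivial {n : ℕ} (α : Fin n → ℝ) (halg : ∀ i, IsAlgebraic ℚ (α i))
    (hind : ∀ z : Fin n → ℤ, z ≠ 0 → Irrational (∑ i, (z i : ℝ) * α i))
    (b : ℕ) (hb : 2 ≤ b) (m : ℕ) (q : Fin n → ℕ → ℤ) (hq : ∃ i, ∃ j, j ≤ m ∧ q i j ≠ 0)
    (e : ℤ) :
    ∃ c : ℝ, 0 < c ∧ ∃ N0 : ℕ, ∀ N : ℕ, N0 ≤ N →
      c * (Real.log N) ^ 2 / (Real.log (Real.log N)) ^ 3 ≤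
        (((Icc 1 N).filter (fun k : ℕ =>
          ∑ i, ∑ j ∈ range (m + 1), q i j * digit b (α i) (k + j) ≠ e)).card : ℝ) := by
  set Q : Fin n → ℤ[X] := fun i => ∑ j ∈ range (m + 1), C (q i j) * X ^ j with hQ
  have hcoeff : ∀ i, ∀ j, (Q i).coeff j = if j ∈ range (m + 1) then q i j else 0 := by
    intro i j
    simp only [hQ, finsetSum_coeff, coeff_C_mul, coeff_X_pow]
    rw [← Finset.sum_filter_add_sum_filter_not (range (m + 1)) (fun l => l = j)]
    have h2 : ∑ l ∈ (range (m + 1)).filter (fun l => ¬ l = j),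
        q i l * (if j = l then 1 else 0) = 0 := by
      apply Finset.sum_eq_zero
      intro l hl
      have := (Finset.mem_filter.1 hl).2
      rw [if_neg (fun h => this h.symm), mul_zero]
    rw [h2, add_zero]
    by_cases hj : j ∈ range (m + 1)
    · rw [if_pos hj, Finset.filter_eq' , if_pos hj]
      simp
    · rw [if_neg hj, Finset.filter_eq', if_neg hj]
      simp
  have hdeg : ∀ i, (Q i).natDegree ≤ m := by
    intro i
    apply natDegree_le_iff_coeff_eq_zero.2
    intro j hj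
    rw [hcoeff, if_neg]
    rw [Finset.mem_range]; omega
  obtain ⟨c, hc, N0, h⟩ := tuple_all α halg hind b hb m Q (by
    obtain ⟨i, j, hj, hij⟩ := hq
    refine ⟨i, fun h0 => hij ?_⟩
    have h1 := hcoeff i j
    rw [h0, coeff_zero, if_pos (Finset.mem_range.2 (by omega))] at h1
    exact h1.symm) hdeg e
  refine ⟨c, hc, N0, fun N hN => (h N hN).trans (le_of_eq ?_)⟩
  congr 2
  apply Finset.filter_congr
  intro k _
  have : ∀ i, rel (Q i) (digit b (α i)) k =
      ∑ j ∈ range (m + 1), q i j * digit b (α i) (k + j) := by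
    intro i
    rw [rel_apply _ _ _ (hdeg i) k]
    apply Finset.sum_congr rfl
    intro j hj
    rw [hcoeff, if_pos hj]
  simp only [this]

/-- every nontrivial relation between the digits of one number -/
theorem relations_nontrivial (x : ℝ) (halg : IsAlgebraic ℚ x) (hirr : Irrational x)
    (b : ℕ) (hb : 2 ≤ b) (m : ℕ) (q : ℕ → ℤ) (hq : ∃ j, j ≤ m ∧ q j ≠ 0) (e : ℤ) :
    ∃ c : ℝ, 0 < c ∧ ∃ N0 : ℕ, ∀ N : ℕ, N0 ≤ N →
      c * (Real.log N) ^ 2 / (Real.log (Real.log N)) ^ 3 ≤
        (((Icc 1 N).filter (fun k : ℕ =>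
          ∑ j ∈ range (m + 1), q j * digit b x (k + j) ≠ e)).card : ℝ) := by
  have h := tuple_nontrivial (n := 1) (fun _ => x) (fun _ => halg) (by
    intro z hz
    have hz0 : z 0 ≠ 0 := by
      intro h0
      apply hz
      funext i
      rw [Subsingleton.elim i 0, h0]; rfl
    simpa using hirr.intCast_mul hz0) b hb m (fun _ => q) (by
    obtain ⟨j, hj, h0⟩ := hq
    exact ⟨0, j, hj, h0⟩) e
  simpa using h

end Pool.Agent.W44
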